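import Pool.Agent.W214.BP.B2a

/-!
# BP-B2: the degree of a point in a long cycle is spread out
-/

set_option autoImplicit false

namespace Pool.Agent.W214.BP

open Pool.Agent.W79.BP
open scoped Classical

theorem c3 {n : ℕ} (σ : Equiv.Perm (Fin n)) (x y : Fin n) (hxy : ¬ σ.SameCycle x y) (D : ℕ)
    (hD : 2 * D < (cy σ y).card) {β : SimpleGraph (Fin n)} (hβ : β ∈ Fx σ)
    (T : Finset (Finset (Fin D))) (B : Finset (SimpleGraph (Fin n)))
    (hB : ∀ δ ∈ B, (Finset.univ.filter (δ.Adj x)).card = (Finset.univ.filter (δ.Adj y)).card)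
    (hT : ∀ s ∈ T, ∃ δ ∈ B,
      ∀ u v, δ.Adj u v ↔ ¬ (β.Adj u v ↔ ∃ j ∈ s, SO σ (pp σ y D j) (u, v))) :
    T.card ≤ D.choose (D / 2) := by
  refine cnt (Finset.univ.filter (fun d => β.Adj y (ps σ y D (d, true))))
    (((Finset.univ.filter (β.Adj x)).card -
        (Finset.univ.filter (fun v => β.Adj y v ∧ v ∉ Set.range (ps σ y D))).card) / 2) T ?_
  intro s hs
  obtain ⟨δ, hδB, hδ⟩ := hT s hs
  exact key σ x y hxy D hD hβ (hB δ hδB) s hδ

theorem mf {α : Type} {p : α → Prop} {inst : DecidablePred p} {s : Finset α} {a : α}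
    (h : a ∈ @Finset.filter α p inst s) : p a := (Finset.mem_filter.1 h).2

theorem c4 (hF : S_FLIP) {n : ℕ} (σ : Equiv.Perm (Fin n)) (x y : Fin n)
    (hxy : ¬ σ.SameCycle x y) (D : ℕ)
    (hD : 2 * D < (cy σ y).card) (B : Finset (SimpleGraph (Fin n))) (hB0 : B ⊆ Fx σ)
    (hB : ∀ δ ∈ B, (Finset.univ.filter (δ.Adj x)).card = (Finset.univ.filter (δ.Adj y)).card) :
    B.card * 2 ^ D ≤ (Fx σ).card * D.choose (D / 2) := by
  have hflip := hF n σ (Fin D) (pp σ y D) (c1 σ y D hD) (c2 σ y D hD) B (D.choose (D / 2)) hB0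
    (fun β hβ => c3 σ x y hxy D hD hβ _ B hB fun s hs => (mf hs :))
  rw [Fintype.card_fin] at hflip
  exact hflip

theorem main : S_FLIP → S_B2 := by
  intro hF n σ x y hxy
  obtain ⟨D, hDdef⟩ : ∃ D, D = ((cy σ y).card - 1) / 2 := ⟨_, rfl⟩
  rw [← hDdef]
  by_cases hl0 : (cy σ y).card = 0
  · have : D = 0 := by rw [hDdef, hl0]
    rw [this, mul_zero]
    exact Nat.zero_le _
  have hD : 2 * D < (cy σ y).card := by omega
  exact fin_arith _ _ _ D (mid D) (c4 hF σ x y hxy D hD _ (Finset.filter_subset _ _)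
    fun δ hδ => (mf hδ :))

end Pool.Agent.W214.BP
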