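import Pool.Agent.W79.BP.Defs

/-!
# BP-B2: the degree of a point in a long cycle is spread out
-/

set_option autoImplicit false

namespace Pool.Agent.W214.BP

open Pool.Agent.W79.BP
open scoped Classical

theorem cb (k : ℕ) : Nat.centralBinom k ^ 2 * (3 * k + 1) ≤ 16 ^ k := by
  induction k with
  | zero => simp
  | succ k ih =>
    have h1 := Nat.succ_mul_centralBinom_succ k
    have h2 : (k + 1) ^ 2 * (Nat.centralBinom (k + 1) ^ 2 * (3 * (k + 1) + 1)) ≤
        (k + 1) ^ 2 * 16 ^ (k + 1) := by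
      calc (k + 1) ^ 2 * (Nat.centralBinom (k + 1) ^ 2 * (3 * (k + 1) + 1))
          = ((k + 1) * Nat.centralBinom (k + 1)) ^ 2 * (3 * (k + 1) + 1) := by ring
        _ = (2 * (2 * k + 1) * Nat.centralBinom k) ^ 2 * (3 * (k + 1) + 1) := by rw [h1]
        _ = Nat.centralBinom k ^ 2 * (4 * ((2 * k + 1) ^ 2 * (3 * k + 4))) := by ring
        _ ≤ Nat.centralBinom k ^ 2 * (4 * (4 * (k + 1) ^ 2 * (3 * k + 1))) := by
            have : (2 * k + 1) ^ 2 * (3 * k + 4) ≤ 4 * (k + 1) ^ 2 * (3 * k + 1) := by nlinarith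
            gcongr
        _ = 16 * (k + 1) ^ 2 * (Nat.centralBinom k ^ 2 * (3 * k + 1)) := by ring
        _ ≤ 16 * (k + 1) ^ 2 * 16 ^ k := by gcongr
        _ = (k + 1) ^ 2 * 16 ^ (k + 1) := by ring
    exact Nat.le_of_mul_le_mul_left h2 (by positivity)

theorem mid (D : ℕ) : (D.choose (D / 2)) ^ 2 * D ≤ 4 ^ D := by
  rcases Nat.even_or_odd' D with ⟨k, rfl | rfl⟩
  · rw [Nat.mul_div_cancel_left k (by norm_num), ← Nat.centralBinom_eq_two_mul_choose]
    calc Nat.centralBinom k ^ 2 * (2 * k) ≤ Nat.centralBinom k ^ 2 * (3 * k + 1) := by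
          have : 2 * k ≤ 3 * k + 1 := by omega
          gcongr
      _ ≤ 16 ^ k := cb k
      _ = 4 ^ (2 * k) := by rw [pow_mul]; norm_num
  · have e : (2 * k + 1) / 2 = k := by omega
    rw [e]
    have h1 : 2 * (2 * k + 1).choose k = Nat.centralBinom (k + 1) := by
      rw [Nat.centralBinom_eq_two_mul_choose, show 2 * (k + 1) = 2 * k + 1 + 1 by ring,
        Nat.choose_succ_succ, Nat.choose_symm_half]
      ring
    have h2 := cb (k + 1)
    rw [← h1] at h2
    have h3 : 4 * (((2 * k + 1).choose k) ^ 2 * (2 * k + 1)) ≤ 4 * 4 ^ (2 * k + 1) := by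
      calc 4 * (((2 * k + 1).choose k) ^ 2 * (2 * k + 1))
          ≤ 4 * (((2 * k + 1).choose k) ^ 2 * (3 * (k + 1) + 1)) := by
            have : 2 * k + 1 ≤ 3 * (k + 1) + 1 := by omega
            gcongr
        _ = (2 * (2 * k + 1).choose k) ^ 2 * (3 * (k + 1) + 1) := by ring
        _ ≤ 16 ^ (k + 1) := h2
        _ = 4 * 4 ^ (2 * k + 1) := by
            rw [pow_succ 4 (2 * k), pow_mul, pow_succ]
            norm_num
            ring
    exact Nat.le_of_mul_le_mul_left h3 (by norm_num)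

variable {n : ℕ}

theorem cy_card (σ : Equiv.Perm (Fin n)) (y : Fin n) :
    (cy σ y).card = Function.minimalPeriod (σ • ·) y := by
  rw [MulAction.minimalPeriod_eq_card, ← Fintype.card_coe]
  refine Fintype.card_congr (Equiv.subtypeEquivRight fun z => ?_)
  unfold cy
  simp only [Finset.mem_filter, Finset.mem_univ, true_and]
  constructor
  · rintro ⟨i, hi⟩
    exact ⟨⟨σ ^ i, ⟨i, rfl⟩⟩, hi⟩
  · rintro ⟨⟨_, ⟨i, rfl⟩⟩, hi⟩
    exact ⟨i, hi⟩

theorem zp (σ : Equiv.Perm (Fin n)) (y : Fin n) (k : ℤ) :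
    (σ ^ k) y = y ↔ ((cy σ y).card : ℤ) ∣ k := by
  rw [cy_card]
  exact MulAction.zpow_smul_eq_iff_minimalPeriod_dvd (a := σ) (b := y) (n := k)

theorem zp2 (σ : Equiv.Perm (Fin n)) (y : Fin n) (i j : ℤ) :
    (σ ^ i) y = (σ ^ j) y ↔ ((cy σ y).card : ℤ) ∣ i - j := by
  rw [← zp]
  constructor
  · intro h
    rw [show i - j = -j + i by ring, zpow_add, Equiv.Perm.mul_apply, h, ← Equiv.Perm.mul_apply,
      ← zpow_add]
    simp
  · intro h
    have : i = j + (i - j) := by ring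
    rw [this, zpow_add, Equiv.Perm.mul_apply, h]

/-- graphs fixed by `σ` -/
theorem fx_adj {σ : Equiv.Perm (Fin n)} {β : SimpleGraph (Fin n)} (h : β ∈ Fx σ) (k : ℤ)
    (u v : Fin n) : β.Adj ((σ ^ k) u) ((σ ^ k) v) ↔ β.Adj u v := by
  have h0 : SimpleGraph.comap (⇑σ) β = β := by
    unfold Fx at h
    simpa using h
  have h1 : ∀ u v, β.Adj (σ u) (σ v) ↔ β.Adj u v := by
    intro u v
    have := congrArg (fun γ : SimpleGraph (Fin n) => γ.Adj u v) h0
    simpa using this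
  have hn : ∀ (m : ℕ) (u v : Fin n), β.Adj ((σ ^ m) u) ((σ ^ m) v) ↔ β.Adj u v := by
    intro m
    induction m with
    | zero => intro u v; simp
    | succ m ih =>
      intro u v
      rw [pow_succ, Equiv.Perm.mul_apply, Equiv.Perm.mul_apply, ih, h1]
  obtain ⟨m, rfl | rfl⟩ := k.eq_nat_or_neg
  · rw [zpow_natCast]
    exact hn m u v
  · have := hn m ((σ ^ (-(m : ℤ))) u) ((σ ^ (-(m : ℤ))) v)
    rw [← this, ← zpow_natCast, ← Equiv.Perm.mul_apply, ← Equiv.Perm.mul_apply, ← zpow_add]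
    simp

/-- the neighbours of `y` in the cycle at distance `d + 1` -/
noncomputable def ps (σ : Equiv.Perm (Fin n)) (y : Fin n) (D : ℕ) (q : Fin D × Bool) : Fin n :=
  (σ ^ (if q.2 then ((q.1 : ℕ) : ℤ) + 1 else -(((q.1 : ℕ) : ℤ) + 1))) y

theorem ps_inj (σ : Equiv.Perm (Fin n)) (y : Fin n) (D : ℕ) (hD : 2 * D < (cy σ y).card) :
    Function.Injective (ps σ y D) := by
  rintro ⟨d, a⟩ ⟨e, b⟩ h
  unfold ps at h
  rw [zp2] at h
  simp only at h
  have hd := d.2
  have he := e.2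
  have key : ∀ w : ℤ, ((cy σ y).card : ℤ) ∣ w → |w| < (cy σ y).card → w = 0 := fun w hw hw2 =>
    Int.eq_zero_of_abs_lt_dvd hw hw2
  have h0 := key _ h (by
    rw [abs_lt]
    split_ifs <;> constructor <;> omega)
  have hde : (d : ℕ) = e ∧ a = b := by
    cases a <;> cases b <;> simp at h0 ⊢ <;> omega
  exact Prod.ext (Fin.ext hde.1) hde.2

theorem so_y (σ : Equiv.Perm (Fin n)) (y v : Fin n) (e : ℤ) :
    SO σ (y, (σ ^ e) y) (y, v) ↔ v = (σ ^ e) y ∨ v = (σ ^ (-e)) y := by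
  unfold SO
  simp only
  constructor
  · rintro ⟨k, ⟨h1, h2⟩ | ⟨h1, h2⟩⟩
    · left
      rw [← h2, ← Equiv.Perm.mul_apply, ← zpow_add, add_comm, zpow_add, Equiv.Perm.mul_apply, h1]
    · right
      rw [← Equiv.Perm.mul_apply, ← zpow_add] at h2
      rw [← h1]
      have h3 : (σ ^ (-e)) ((σ ^ (k + e)) y) = (σ ^ (-e)) y := congrArg _ h2
      rw [← Equiv.Perm.mul_apply, ← zpow_add] at h3
      rw [← h3]
      congr 2
      ring
  · rintro (h | h)
    · exact ⟨0, Or.inl ⟨by simp, by simp [h]⟩⟩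
    · refine ⟨-e, Or.inr ⟨h.symm, ?_⟩⟩
      rw [← Equiv.Perm.mul_apply, ← zpow_add]
      simp

theorem so_mem (σ : Equiv.Perm (Fin n)) (y u v : Fin n) (e : ℤ)
    (h : SO σ (y, (σ ^ e) y) (u, v)) : σ.SameCycle u y := by
  obtain ⟨k, ⟨h1, h2⟩ | ⟨h1, h2⟩⟩ := h
  · simp only at h1
    rw [← h1]
    exact (Equiv.Perm.sameCycle_zpow_left.2 (Equiv.Perm.SameCycle.refl σ y))
  · simp only at h2
    rw [← h2]
    exact (Equiv.Perm.sameCycle_zpow_left.2
      (Equiv.Perm.sameCycle_zpow_left.2 (Equiv.Perm.SameCycle.refl σ y)))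

/-- the pairs -/
noncomputable def pp (σ : Equiv.Perm (Fin n)) (y : Fin n) (D : ℕ) (d : Fin D) : Fin n × Fin n :=
  (y, (σ ^ (((d : ℕ) : ℤ) + 1)) y)

theorem flip1 {a b : Prop} (h : ¬ b) : ¬ (a ↔ b) ↔ a := by tauto

theorem flip2 {a b : Prop} : ¬ (a ↔ b) ↔ (a ∧ ¬ b) ∨ (b ∧ ¬ a) := by tauto

theorem cnt {D : ℕ} (g : Finset (Fin D)) (k : ℕ) (T : Finset (Finset (Fin D)))
    (h : ∀ s ∈ T, (symmDiff g s).card = k) : T.card ≤ D.choose (D / 2) := by
  have h1 : T.card ≤ (Finset.powersetCard k (Finset.univ : Finset (Fin D))).card := by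
    refine Finset.card_le_card_of_injOn (fun s => symmDiff g s) ?_ ?_
    · intro s hs
      exact Finset.mem_coe.2 (Finset.mem_powersetCard.2 ⟨Finset.subset_univ _, h s hs⟩)
    · intro s _ s' _ h
      exact symmDiff_right_injective g h
  rw [Finset.card_powersetCard, Finset.card_univ, Fintype.card_fin] at h1
  exact h1.trans (Nat.choose_le_middle _ _)

/-- the degree of `y` -/
theorem deg_y (σ : Equiv.Perm (Fin n)) (y : Fin n) (D : ℕ) (hD : 2 * D < (cy σ y).card)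
    (δ : SimpleGraph (Fin n)) (S : Finset (Fin D))
    (hδ : ∀ q : Fin D × Bool, δ.Adj y (ps σ y D q) ↔ q.1 ∈ S) :
    (Finset.univ.filter (δ.Adj y)).card =
      (Finset.univ.filter (fun v => δ.Adj y v ∧ v ∉ Set.range (ps σ y D))).card + 2 * S.card := by
  have h1 : Finset.univ.filter (δ.Adj y) =
      (Finset.univ.filter (fun v => δ.Adj y v ∧ v ∉ Set.range (ps σ y D))) ∪
      ((S ×ˢ (Finset.univ : Finset Bool)).image (ps σ y D)) := by
    ext v
    simp only [Finset.mem_filter, Finset.mem_univ, true_and, Finset.mem_union, Finset.mem_image,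
      Finset.mem_product, and_true]
    constructor
    · intro h
      by_cases hv : v ∈ Set.range (ps σ y D)
      · obtain ⟨q, rfl⟩ := hv
        exact Or.inr ⟨q, (hδ q).1 h, rfl⟩
      · exact Or.inl ⟨h, hv⟩
    · rintro (h | ⟨q, hq, rfl⟩)
      · exact h.1
      · exact (hδ q).2 hq
  have h2 : Disjoint (Finset.univ.filter (fun v => δ.Adj y v ∧ v ∉ Set.range (ps σ y D)))
      ((S ×ˢ (Finset.univ : Finset Bool)).image (ps σ y D)) := by
    rw [Finset.disjoint_left]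
    intro v hv hv2
    simp only [Finset.mem_filter, Finset.mem_univ, true_and] at hv
    simp only [Finset.mem_image] at hv2
    obtain ⟨q, _, rfl⟩ := hv2
    exact hv.2 ⟨q, rfl⟩
  rw [h1, Finset.card_union_of_disjoint h2, Finset.card_image_of_injective _ (ps_inj σ y D hD),
    Finset.card_product]
  simp [mul_comm]

theorem c1 (σ : Equiv.Perm (Fin n)) (y : Fin n) (D : ℕ) (hD : 2 * D < (cy σ y).card)
    (d : Fin D) : (pp σ y D d).1 ≠ (pp σ y D d).2 := by
  intro h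
  unfold pp at h
  simp only at h
  have h1 := (zp σ y (((d : ℕ) : ℤ) + 1)).1 h.symm
  have h2 := Int.le_of_dvd (by positivity) h1
  have := d.2
  omega

theorem c2 (σ : Equiv.Perm (Fin n)) (y : Fin n) (D : ℕ) (hD : 2 * D < (cy σ y).card)
    (d e : Fin D) (hde : d ≠ e) : ¬ SO σ (pp σ y D d) (pp σ y D e) := by
  intro h
  unfold pp at h
  obtain ⟨k, ⟨h1, h2⟩ | ⟨h1, h2⟩⟩ := h
  · simp only at h1 h2
    rw [← Equiv.Perm.mul_apply, ← zpow_add, zp2] at h2
    rw [zp] at h1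
    have h3 : ((cy σ y).card : ℤ) ∣ (((d : ℕ) : ℤ) - ((e : ℕ) : ℤ)) := by
      have := dvd_sub h2 h1
      have e1 : k + (((d : ℕ) : ℤ) + 1) - (((e : ℕ) : ℤ) + 1) - k =
        ((d : ℕ) : ℤ) - ((e : ℕ) : ℤ) := by ring
      rwa [e1] at this
    have h4 := Int.eq_zero_of_abs_lt_dvd h3 (by
      have := d.2
      have := e.2
      rw [abs_lt]
      constructor <;> omega)
    exact hde (Fin.ext (by omega))
  · simp only at h1 h2
    rw [← Equiv.Perm.mul_apply, ← zpow_add, zp] at h2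
    rw [zp2] at h1
    have h3 : ((cy σ y).card : ℤ) ∣ (((d : ℕ) : ℤ) + ((e : ℕ) : ℤ) + 2) := by
      have := dvd_sub h2 h1
      have e1 : k + (((d : ℕ) : ℤ) + 1) - (k - (((e : ℕ) : ℤ) + 1)) =
        ((d : ℕ) : ℤ) + ((e : ℕ) : ℤ) + 2 := by ring
      rwa [e1] at this
    have h4 := Int.le_of_dvd (by positivity) h3
    have := d.2
    have := e.2
    omega

/-- adjacency of `β` at the points of the cycle -/
theorem adjq (σ : Equiv.Perm (Fin n)) (y : Fin n) (D : ℕ) {β : SimpleGraph (Fin n)}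
    (hβ : β ∈ Fx σ) (q : Fin D × Bool) : β.Adj y (ps σ y D q) ↔
      q.1 ∈ Finset.univ.filter (fun d => β.Adj y (ps σ y D (d, true))) := by
  obtain ⟨d, b⟩ := q
  simp only [Finset.mem_filter, Finset.mem_univ, true_and]
  cases b with
  | true => exact Iff.rfl
  | false =>
    unfold ps
    simp only [if_true, Bool.false_eq_true, if_false]
    rw [← fx_adj hβ (((d : ℕ) : ℤ) + 1) y, β.adj_comm, ← Equiv.Perm.mul_apply, ← zpow_add]
    simp

/-- the flipped neighbours of `y` -/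
theorem soy (σ : Equiv.Perm (Fin n)) (y : Fin n) (D : ℕ) (s : Finset (Fin D)) (v : Fin n) :
    (∃ j ∈ s, SO σ (pp σ y D j) (y, v)) ↔ ∃ j ∈ s, ∃ b : Bool, v = ps σ y D (j, b) := by
  constructor
  · rintro ⟨j, hj, hj2⟩
    unfold pp at hj2
    rw [so_y] at hj2
    rcases hj2 with h | h
    · exact ⟨j, hj, true, by simpa [ps] using h⟩
    · exact ⟨j, hj, false, by simpa [ps] using h⟩
  · rintro ⟨j, hj, b, rfl⟩
    refine ⟨j, hj, ?_⟩
    unfold pp
    rw [so_y]
    cases b with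
    | true => left; simp [ps]
    | false => right; simp [ps]

theorem key (σ : Equiv.Perm (Fin n)) (x y : Fin n) (hxy : ¬ σ.SameCycle x y) (D : ℕ)
    (hD : 2 * D < (cy σ y).card) {β δ : SimpleGraph (Fin n)} (hβ : β ∈ Fx σ)
    (hδ1 : (Finset.univ.filter (δ.Adj x)).card = (Finset.univ.filter (δ.Adj y)).card)
    (s : Finset (Fin D))
    (hδ : ∀ u v, δ.Adj u v ↔ ¬ (β.Adj u v ↔ ∃ j ∈ s, SO σ (pp σ y D j) (u, v))) :
    (symmDiff (Finset.univ.filter (fun d => β.Adj y (ps σ y D (d, true)))) s).card =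
      ((Finset.univ.filter (β.Adj x)).card -
        (Finset.univ.filter (fun v => β.Adj y v ∧ v ∉ Set.range (ps σ y D))).card) / 2 := by
  have hx : Finset.univ.filter (δ.Adj x) = Finset.univ.filter (β.Adj x) := by
    ext v
    simp only [Finset.mem_filter, Finset.mem_univ, true_and]
    rw [hδ x v]
    refine flip1 ?_
    rintro ⟨j, _, hj⟩
    exact hxy (so_mem σ y x v _ hj)
  have hy2 : ∀ q : Fin D × Bool, δ.Adj y (ps σ y D q) ↔
      q.1 ∈ symmDiff (Finset.univ.filter (fun d => β.Adj y (ps σ y D (d, true)))) s := by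
    intro q
    rw [hδ, soy, adjq σ y D hβ]
    have : (∃ j ∈ s, ∃ b : Bool, ps σ y D q = ps σ y D (j, b)) ↔ q.1 ∈ s := by
      constructor
      · rintro ⟨j, hj, b, h⟩
        rw [ps_inj σ y D hD h]
        exact hj
      · intro h
        exact ⟨q.1, h, q.2, rfl⟩
    rw [this, Finset.mem_symmDiff]
    exact flip2
  have hy3 : Finset.univ.filter (fun v => δ.Adj y v ∧ v ∉ Set.range (ps σ y D)) =
      Finset.univ.filter (fun v => β.Adj y v ∧ v ∉ Set.range (ps σ y D)) := by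
    ext v
    simp only [Finset.mem_filter, Finset.mem_univ, true_and]
    refine and_congr_left fun hv => ?_
    rw [hδ, soy]
    refine flip1 ?_
    rintro ⟨j, _, b, rfl⟩
    exact hv ⟨_, rfl⟩
  have hdeg := deg_y σ y D hD δ _ hy2
  rw [hy3, ← hδ1, hx] at hdeg
  omega

theorem fin_arith (b f c D : ℕ) (h1 : c ^ 2 * D ≤ 4 ^ D) (h : b * 2 ^ D ≤ f * c) :
    b ^ 2 * D ≤ f ^ 2 := by
  have h2 : b ^ 2 * D * 4 ^ D ≤ f ^ 2 * 4 ^ D := by
    calc b ^ 2 * D * 4 ^ D = (b * 2 ^ D) ^ 2 * D := by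
          rw [show (4 : ℕ) = 2 ^ 2 by norm_num, ← pow_mul, mul_pow, ← pow_mul]
          ring
      _ ≤ (f * c) ^ 2 * D := by gcongr
      _ = f ^ 2 * (c ^ 2 * D) := by ring
      _ ≤ f ^ 2 * 4 ^ D := by gcongr
  exact Nat.le_of_mul_le_mul_right h2 (by positivity)

end Pool.Agent.W214.BP
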